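import Pool.Agent.W787.QC.Defs

/-!
# Project QC: the rescaled sequence
-/

open MeasureTheory Set Metric Filter Topology Real
open scoped ContDiff Pointwise

noncomputable section

namespace Pool.Agent.W414.QC

open Pool.Agent.W787.QC

theorem seq (h1 : S_BL) (h2 : S_SC) (h3 : S_MP) : S_SEQ := by
  have h3' : ∀ k : ℕ, ∃ v : E → ℝ, ContDiff ℝ ∞ v ∧
      (∀ y ∈ ball (0 : E) ((k : ℝ) + 1),
        |Real.exp (-4 * v y) * bil v y - 6| ≤ 1 / ((k : ℝ) + 1) ^ 2 ∧
        ‖fderiv ℝ (fun z => Real.exp (-4 * v z) * bil v z) y‖ ≤ 1 / ((k : ℝ) + 1) ^ 2) ∧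
      ∀ r : ℝ, 2 ≤ r → r ≤ (k : ℝ) + 1 →
        |(∫ y in ball (0 : E) r, bil v y) - 32 * π ^ 2| ≤ 1 / ((k : ℝ) + 1) := by
    intro k
    have h := h3 (k + 1) (Nat.le_add_left 1 k)
    push_cast at h
    exact h
  choose v hv hvb hvm using h3'
  have hN : ∀ k : ℕ, (0 : ℝ) < (k : ℝ) + 1 := fun k => by positivity
  have hu : ∀ k, ContDiff ℝ ∞ (fun x : E => v k (((k : ℝ) + 1) • x) + Real.log ((k : ℝ) + 1)) := by
    intro k
    exact ((hv k).comp (contDiff_const_smul _)).add contDiff_const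
  have hbil : ∀ k (x : E), bil (fun x : E => v k (((k : ℝ) + 1) • x) + Real.log ((k : ℝ) + 1)) x
      = ((k : ℝ) + 1) ^ 4 * bil (v k) (((k : ℝ) + 1) • x) := fun k x =>
    h2 (v k) ((k : ℝ) + 1) (Real.log ((k : ℝ) + 1)) (hv k) (hN k) x
  have hQ : ∀ k (x : E), Real.exp (-4 * (v k (((k : ℝ) + 1) • x) + Real.log ((k : ℝ) + 1))) *
      bil (fun x : E => v k (((k : ℝ) + 1) • x) + Real.log ((k : ℝ) + 1)) x
      = Real.exp (-4 * v k (((k : ℝ) + 1) • x)) * bil (v k) (((k : ℝ) + 1) • x) := by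
    intro k x
    rw [hbil]
    have e1 : Real.exp (-4 * (v k (((k : ℝ) + 1) • x) + Real.log ((k : ℝ) + 1))) =
        Real.exp (-4 * v k (((k : ℝ) + 1) • x)) * (((k : ℝ) + 1) ^ 4)⁻¹ := by
      rw [mul_add, Real.exp_add]
      congr 1
      rw [show -4 * Real.log ((k : ℝ) + 1) = -((4 : ℕ) * Real.log ((k : ℝ) + 1)) by
        push_cast; ring, Real.exp_neg, ← Real.log_pow, Real.exp_log (pow_pos (hN k) 4)]
    rw [e1]
    have h4 : ((k : ℝ) + 1) ^ 4 ≠ 0 := (pow_pos (hN k) 4).ne'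
    field_simp
  have hsm : ∀ k, ContDiff ℝ ∞ (fun z : E => Real.exp (-4 * v k z) * bil (v k) z) := fun k =>
    (Real.contDiff_exp.comp (contDiff_const.mul (hv k))).mul (h1.2.2.1 _ (hv k))
  refine ⟨fun k x => v k (((k : ℝ) + 1) • x) + Real.log ((k : ℝ) + 1),
    fun k x => Real.exp (-4 * v k (((k : ℝ) + 1) • x)) * bil (v k) (((k : ℝ) + 1) • x),
    hu, ?_, ?_, ?_, ?_⟩
  · intro k
    exact (hsm k).comp (contDiff_const_smul ((k : ℝ) + 1))
  · intro k x
    beta_reduce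
    rw [← hQ k x, mul_right_comm, ← Real.exp_add]
    rw [show -4 * (v k (((k : ℝ) + 1) • x) + Real.log ((k : ℝ) + 1)) +
      4 * (v k (((k : ℝ) + 1) • x) + Real.log ((k : ℝ) + 1)) = 0 by ring, Real.exp_zero, one_mul]
  · intro k x hx
    have hk0 : (0 : ℝ) ≤ (k : ℝ) := Nat.cast_nonneg k
    have hmem : ((k : ℝ) + 1) • x ∈ ball (0 : E) ((k : ℝ) + 1) := by
      rw [mem_ball_zero_iff] at hx ⊢
      rw [norm_smul, Real.norm_of_nonneg (hN k).le]
      nlinarith [hN k]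
    obtain ⟨b1, b2⟩ := hvb k _ hmem
    have hle : 1 / ((k : ℝ) + 1) ^ 2 ≤ 1 / ((k : ℝ) + 1) := by
      apply one_div_le_one_div_of_le (hN k)
      nlinarith [hN k]
    refine ⟨b1.trans hle, ?_⟩
    have hd : DifferentiableAt ℝ (fun z : E => Real.exp (-4 * v k z) * bil (v k) z)
        (((k : ℝ) + 1) • x) := ((hsm k).differentiable (by simp)).differentiableAt
    have hf : HasFDerivAt (fun x : E =>
        Real.exp (-4 * v k (((k : ℝ) + 1) • x)) * bil (v k) (((k : ℝ) + 1) • x))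
        ((fderiv ℝ (fun z : E => Real.exp (-4 * v k z) * bil (v k) z) (((k : ℝ) + 1) • x)).comp
          (((k : ℝ) + 1) • ContinuousLinearMap.id ℝ E)) x := by
      have hg : HasFDerivAt (fun x : E => ((k : ℝ) + 1) • x)
          (((k : ℝ) + 1) • ContinuousLinearMap.id ℝ E) x :=
        (hasFDerivAt_id x).const_smul ((k : ℝ) + 1)
      exact hd.hasFDerivAt.comp x hg
    rw [hf.fderiv, ContinuousLinearMap.comp_smul, norm_smul, ContinuousLinearMap.comp_id,
      Real.norm_of_nonneg (hN k).le]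
    calc ((k : ℝ) + 1) * ‖fderiv ℝ (fun z : E => Real.exp (-4 * v k z) * bil (v k) z)
          (((k : ℝ) + 1) • x)‖ ≤ ((k : ℝ) + 1) * (1 / ((k : ℝ) + 1) ^ 2) :=
          mul_le_mul_of_nonneg_left b2 (hN k).le
      _ = 1 / ((k : ℝ) + 1) := by
          have := (hN k).ne'
          field_simp
  · intro k R hR1 hR2
    have hN' := hN k
    have hb := hvm k (((k : ℝ) + 1) * R) (by
      rw [div_le_iff₀ hN'] at hR1
      linarith) (by nlinarith)
    have e : (∫ x in ball (0 : E) R,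
        bil (fun x : E => v k (((k : ℝ) + 1) • x) + Real.log ((k : ℝ) + 1)) x) =
        ∫ y in ball (0 : E) (((k : ℝ) + 1) * R), bil (v k) y := by
      simp only [hbil]
      rw [MeasureTheory.integral_const_mul,
        MeasureTheory.Measure.setIntegral_comp_smul_of_pos volume (bil (v k)) (ball (0 : E) R) hN',
        _root_.smul_ball hN'.ne', smul_zero, Real.norm_of_nonneg hN'.le, smul_eq_mul]
      have hfr : Module.finrank ℝ E = 4 := by simp
      rw [hfr, ← mul_assoc, mul_inv_cancel₀ (pow_pos hN' 4).ne', one_mul]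
    rw [e]
    exact hb

end Pool.Agent.W414.QC
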